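import Mathlib

/-! A coarea inequality for the argument of a function whose argument is, modulo `π`, a monotone
differentiable function. -/

set_option autoImplicit false

open Complex MeasureTheory Set

namespace Pool.Agent.TH751.ERS

theorem coarea {z : ℝ → ℂ} (hz : Continuous z) {v σ l : ℝ → ℝ} {a b L k : ℝ} (hk : 1 ≤ k)
    (hσv : ∀ t, σ (v t) = t) (hvσ : ∀ y, v (σ y) = y) (hv : Continuous v) (hσ : Continuous σ)
    (hd : ∀ t, HasDerivAt v (l t) t) (hl : ∀ t, 0 ≤ l t) (hL : ∀ t ∈ Ioc a b, l t ≤ L)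
    (hL0 : 0 ≤ L)
    (harg : ∀ t ∈ Ioc a b, z t ≠ 0 → ∃ n : ℤ, (z t).arg = Real.pi * n - v t)
    {J : Set ℝ} (hJ : MeasurableSet J) (hJ' : J ⊆ Ioc (-Real.pi) Real.pi) {D : ℝ}
    (hD : ∀ φ ∈ J, D ≤ ∑ᶠ t ∈ {t : ℝ | a < t ∧ t ≤ b ∧ ∃ r : ℝ, 0 < r ∧
      z t = r * cexp (φ * I)}, ‖z t‖ ^ k) :
    D * (volume J).toReal ≤
      L * ∫ t in {t : ℝ | a < t ∧ t ≤ b ∧ (z t).arg ∈ J}, ‖z t‖ ^ k := by
  have hRint0 : 0 ≤ ∫ t in {t : ℝ | a < t ∧ t ≤ b ∧ (z t).arg ∈ J}, ‖z t‖ ^ k :=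
    integral_nonneg fun t => Real.rpow_nonneg (norm_nonneg _) _
  rcases le_or_gt D 0 with hD0 | hD0
  · have h1 : D * (volume J).toReal ≤ 0 := mul_nonpos_of_nonpos_of_nonneg hD0 ENNReal.toReal_nonneg
    exact h1.trans (mul_nonneg hL0 hRint0)
  obtain ⟨F, hF⟩ : ∃ F : ℝ → ℝ, F = fun t => ‖z t‖ ^ k := ⟨_, rfl⟩
  have hF0 : ∀ t, 0 ≤ F t := fun t => by rw [hF]; exact Real.rpow_nonneg (norm_nonneg _) _
  have hFc : Continuous F := by
    rw [hF]
    exact hz.norm.rpow_const fun _ => Or.inr (by linarith)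
  obtain ⟨Fe, hFe⟩ : ∃ Fe : ℝ → ENNReal, Fe = fun t => ENNReal.ofReal (F t) := ⟨_, rfl⟩
  have hFem : Measurable Fe := by rw [hFe]; exact hFc.measurable.ennreal_ofReal
  have hzm : Measurable z := hz.measurable
  have hargm : Measurable fun t => (z t).arg := Complex.measurable_arg.comp hzm
  obtain ⟨S, hS⟩ : ∃ S : Set ℝ, S = {t : ℝ | a < t ∧ t ≤ b ∧ (z t).arg ∈ J} := ⟨_, rfl⟩
  have hSm : MeasurableSet S := by
    rw [hS]
    exact (measurableSet_Ioi (a := a)).inter ((measurableSet_Iic (a := b)).inter (hargm hJ))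
  have hSI : S ⊆ Icc a b := by
    rw [hS]; rintro t ⟨h1, h2, -⟩; exact ⟨h1.le, h2⟩
  obtain ⟨A, hA⟩ : ∃ A : ℤ → Set ℝ, A = fun (n : ℤ) => {t : ℝ | a < t ∧ t ≤ b ∧ z t ≠ 0 ∧
    (z t).arg = Real.pi * n - v t ∧ (z t).arg ∈ J} := ⟨_, rfl⟩
  have hAm : ∀ n, MeasurableSet (A n) := by
    intro n
    rw [hA]
    refine (measurableSet_Ioi (a := a)).inter ((measurableSet_Iic (a := b)).inter
      (MeasurableSet.inter ?_ (MeasurableSet.inter ?_ (hargm hJ))))
    · exact (isOpen_ne.preimage hz).measurableSet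
    · exact measurableSet_eq_fun hargm (measurable_const.sub hv.measurable)
  have hAS : ∀ n, A n ⊆ S := by
    intro n t ht
    rw [hA] at ht
    rw [hS]
    exact ⟨ht.1, ht.2.1, ht.2.2.2.2⟩
  have hAd : Pairwise (Function.onFun Disjoint A) := by
    intro m n hmn
    refine Set.disjoint_left.2 fun t ht ht' => hmn ?_
    rw [hA] at ht ht'
    have h1 := ht.2.2.2.1
    have h2 := ht'.2.2.2.1
    have h3 : Real.pi * m = Real.pi * n := by linarith
    have h4 := mul_left_cancel₀ Real.pi_ne_zero h3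
    exact_mod_cast h4
  obtain ⟨g, hg⟩ : ∃ g : ℤ → ℝ → ℝ, g = fun (n : ℤ) (t : ℝ) => Real.pi * n - v t := ⟨_, rfl⟩
  obtain ⟨h, hh⟩ : ∃ h : ℤ → ℝ → ℝ, h = fun (n : ℤ) (φ : ℝ) => σ (Real.pi * n - φ) := ⟨_, rfl⟩
  have hhg : ∀ n t, h n (g n t) = t := by
    intro n t
    rw [hh, hg]
    simp only [sub_sub_cancel, hσv]
  have hgh : ∀ n φ, g n (h n φ) = φ := by
    intro n φ
    rw [hh, hg]
    simp only [hvσ, sub_sub_cancel]
  have hhm : ∀ n, Measurable (h n) := by
    intro n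
    rw [hh]
    exact (hσ.comp (continuous_const.sub continuous_id)).measurable
  obtain ⟨B, hB⟩ : ∃ B : ℤ → Set ℝ, B = fun n => h n ⁻¹' A n := ⟨_, rfl⟩
  have hBm : ∀ n, MeasurableSet (B n) := fun n => by rw [hB]; exact hhm n (hAm n)
  have hBA : ∀ n, g n '' A n = B n := by
    intro n
    rw [hB]
    ext φ
    simp only [mem_image, mem_preimage]
    constructor
    · rintro ⟨t, ht, rfl⟩
      rw [hhg]; exact ht
    · intro hφ
      exact ⟨h n φ, hφ, hgh n φ⟩
  have hBJ : ∀ n, B n ⊆ J := by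
    intro n φ hφ
    rw [← hBA] at hφ
    obtain ⟨t, ht, rfl⟩ := hφ
    rw [hA] at ht
    have h1 := ht.2.2.2.1
    have h2 := ht.2.2.2.2
    rw [h1] at h2
    rw [hg]
    exact h2
  -- change of variables on one piece
  have h1 : ∀ n, ∫⁻ φ in B n, Fe (h n φ) ≤ ENNReal.ofReal L * ∫⁻ t in A n, Fe t := by
    intro n
    have e1 := lintegral_image_eq_lintegral_abs_deriv_mul (f := g n) (f' := fun t => -l t)
      (hAm n) (fun t _ => by
        rw [hg]
        exact (((hasDerivAt_const t (Real.pi * n)).sub (hd t)).congr_deriv (by ring)).hasDerivWithinAt)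
      (fun s _ t _ hst => by
        have := congrArg (h n) hst
        rwa [hhg, hhg] at this) (fun φ => Fe (h n φ))
    rw [hBA] at e1
    rw [e1, ← lintegral_const_mul _ hFem]
    refine setLIntegral_mono' (hAm n) fun t ht => ?_
    rw [hhg, abs_neg, abs_of_nonneg (hl t)]
    refine mul_le_mul_left (ENNReal.ofReal_le_ofReal (hL t ?_)) _
    rw [hA] at ht
    exact ⟨ht.1, ht.2.1⟩
  -- all pieces
  have h2 : ∑' n, ∫⁻ t in A n, Fe t ≤ ∫⁻ t in S, Fe t := by
    rw [← lintegral_iUnion hAm hAd]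
    exact lintegral_mono_set (iUnion_subset hAS)
  -- pointwise inequality
  have h3 : ∀ φ ∈ J, ENNReal.ofReal D ≤ ∑' n, (B n).indicator (fun φ => Fe (h n φ)) φ := by
    intro φ hφ
    refine (ENNReal.ofReal_le_ofReal (hD φ hφ)).trans ?_
    obtain ⟨P, hP⟩ : ∃ P : Set ℝ, P = {t : ℝ | a < t ∧ t ≤ b ∧ ∃ r : ℝ, 0 < r ∧
      z t = r * cexp (φ * I)} := ⟨_, rfl⟩
    rw [← hP]
    have hFF : (fun t => ‖z t‖ ^ k) = F := hF.symm
    have hfs : ∑ᶠ t ∈ P, ‖z t‖ ^ k = ∑ᶠ t ∈ P, F t := by rw [hF]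
    rw [hfs]
    by_cases hfin : (P ∩ Function.support F).Finite
    · rw [finsum_mem_eq_sum _ hfin, ENNReal.ofReal_sum_of_nonneg fun t _ => hF0 t]
      have key : ∀ t ∈ P, ∃ n : ℤ, t = h n φ ∧ φ ∈ B n := by
        intro t ht
        rw [hP] at ht
        obtain ⟨ht1, ht2, r, hr, hzr⟩ := ht
        have hz0 : z t ≠ 0 := by
          rw [hzr]
          exact mul_ne_zero (by exact_mod_cast hr.ne') (Complex.exp_ne_zero _)
        have har : (z t).arg = φ := by
          rw [hzr, Complex.arg_real_mul _ hr, Complex.arg_exp_mul_I, toIocMod_eq_self]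
          have := hJ' hφ
          constructor
          · exact this.1
          · have h5 := this.2
            linarith
        obtain ⟨n, hn⟩ := harg t ⟨ht1, ht2⟩ hz0
        have hgt : g n t = φ := by rw [hg, ← har, hn]
        have htA : t ∈ A n := by
          rw [hA]
          exact ⟨ht1, ht2, hz0, hn, by rw [har]; exact hφ⟩
        refine ⟨n, ?_, ?_⟩
        · rw [← hgt, hhg]
        · rw [← hBA, ← hgt]
          exact mem_image_of_mem _ htA
      choose! ν hν using key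
      have hsum : ∑ t ∈ hfin.toFinset, ENNReal.ofReal (F t) =
          ∑ t ∈ hfin.toFinset, (B (ν t)).indicator (fun φ => Fe (h (ν t) φ)) φ := by
        refine Finset.sum_congr rfl fun t ht => ?_
        have htP : t ∈ P := by
          rw [Finite.mem_toFinset] at ht
          exact ht.1
        obtain ⟨e1, e2⟩ := hν t htP
        rw [indicator_of_mem e2, ← e1, hFe]
      rw [hsum]
      have hinj : ∀ s ∈ hfin.toFinset, ∀ t ∈ hfin.toFinset, ν s = ν t → s = t := by
        intro s hs t ht hst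
        rw [Finite.mem_toFinset] at hs ht
        rw [(hν s hs.1).1, (hν t ht.1).1, hst]
      have himg : ∑ t ∈ hfin.toFinset, (B (ν t)).indicator (fun φ => Fe (h (ν t) φ)) φ =
          ∑ n ∈ hfin.toFinset.image ν, (B n).indicator (fun φ => Fe (h n φ)) φ :=
        (Finset.sum_image (f := fun n => (B n).indicator (fun φ => Fe (h n φ)) φ) hinj).symm
      rw [himg]
      exact ENNReal.sum_le_tsum _
    · rw [finsum_mem_eq_zero_of_infinite hfin, ENNReal.ofReal_zero]
      exact bot_le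
  -- integration
  have h4 : ENNReal.ofReal D * volume J ≤ ∑' n, ∫⁻ φ in B n, Fe (h n φ) := by
    have e1 : ENNReal.ofReal D * volume J = ∫⁻ _ in J, ENNReal.ofReal D := by
      rw [setLIntegral_const]
    rw [e1]
    refine (setLIntegral_mono' hJ h3).trans ?_
    have e2 : ∀ n, AEMeasurable ((B n).indicator (fun φ => Fe (h n φ))) (volume.restrict J) :=
      fun n => ((hFem.comp (hhm n)).indicator (hBm n)).aemeasurable
    rw [lintegral_tsum e2]
    refine ENNReal.tsum_le_tsum fun n => ?_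
    rw [lintegral_indicator (hBm n), Measure.restrict_restrict (hBm n),
      inter_eq_self_of_subset_left (hBJ n)]
  have h5 : ENNReal.ofReal D * volume J ≤ ENNReal.ofReal L * ∫⁻ t in S, Fe t := by
    refine h4.trans ((ENNReal.tsum_le_tsum h1).trans ?_)
    rw [ENNReal.tsum_mul_left]
    exact mul_le_mul_right h2 _
  have hint : Integrable F (volume.restrict S) :=
    (hFc.continuousOn.integrableOn_compact isCompact_Icc).mono_set hSI
  have h6 : ENNReal.ofReal (∫ t in S, F t) = ∫⁻ t in S, Fe t := by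
    rw [hFe]
    exact ofReal_integral_eq_lintegral_ofReal hint (Filter.Eventually.of_forall hF0)
  have hJfin : volume J ≠ ⊤ := by
    refine ne_top_of_le_ne_top ?_ (measure_mono hJ')
    rw [Real.volume_Ioc]
    exact ENNReal.ofReal_ne_top
  rw [← h6, ← ENNReal.ofReal_toReal hJfin, ← ENNReal.ofReal_mul hD0.le,
    ← ENNReal.ofReal_mul hL0] at h5
  have hI0 : 0 ≤ L * ∫ t in S, F t := mul_nonneg hL0 (integral_nonneg hF0)
  have h7 := (ENNReal.ofReal_le_ofReal_iff hI0).1 h5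
  rw [hS, hF] at h7
  exact h7

end Pool.Agent.TH751.ERS
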