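import Pool.Agent.TH336.ER.Defs
import Pool.Agent.W32.GP.Tau
import Pool.Agent.W338.QS.Line
import Pool.Agent.TH751.ERS.Coarea

/-! ER-SECTOR (for helper336) -/

set_option autoImplicit false
open Complex MeasureTheory Set Filter Topology
namespace Pool.Agent.TH751.ERS
open Pool.Agent.W188.QS Pool.Agent.H306R2 Pool.Agent.TH336.ER Pool.Agent.W188.GP

lemma z_cont : Continuous fun t : ℝ => riemannZeta (1 / 2 + t * I) := by
  rw [continuous_iff_continuousAt]
  intro t
  have h : (1 / 2 + t * I : ℂ) ≠ 1 := by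
    intro h
    have := congrArg Complex.re h
    simp at this
  have h1 : ContinuousAt riemannZeta (1 / 2 + t * I) :=
    (differentiableAt_riemannZeta h).continuousAt
  have h2 : ContinuousAt (fun t : ℝ => (1 / 2 + t * I : ℂ)) t := by fun_prop
  exact ContinuousAt.comp (f := fun t : ℝ => (1 / 2 + t * I : ℂ)) (g := riemannZeta) h1 h2

lemma arg_eq {z : ℂ} (hz : z ≠ 0) {v : ℝ}
    (h : (starRingEnd ℂ) z = cexp (2 * v * I) * z) : ∃ n : ℤ, z.arg = Real.pi * n - v := by
  have h1 : (‖z‖ : ℂ) * cexp (z.arg * I) = z := Complex.norm_mul_exp_arg_mul_I z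
  have hn : (‖z‖ : ℂ) ≠ 0 := by exact_mod_cast norm_ne_zero_iff.2 hz
  have h2 : (starRingEnd ℂ) z = (‖z‖ : ℂ) * cexp (-(z.arg * I)) := by
    conv_lhs => rw [← h1]
    rw [map_mul, Complex.conj_ofReal, ← Complex.exp_conj, map_mul, Complex.conj_ofReal,
      Complex.conj_I, mul_neg]
  have h3 : cexp (-(z.arg * I)) = cexp (2 * v * I) * cexp (z.arg * I) := by
    have h4 : (‖z‖ : ℂ) * cexp (-(z.arg * I)) =
        (‖z‖ : ℂ) * (cexp (2 * v * I) * cexp (z.arg * I)) := by
      rw [← h2, h]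
      conv_lhs => rw [← h1]
      ring
    exact mul_left_cancel₀ hn h4
  have h5 : cexp (2 * (v + z.arg) * I) = 1 := by
    have h6 : cexp (-(z.arg * I)) * cexp (z.arg * I) = 1 := by
      rw [← Complex.exp_add]; simp
    rw [h3, ← Complex.exp_add, ← Complex.exp_add] at h6
    rw [← h6]
    congr 1
    ring
  obtain ⟨n, hn'⟩ := Complex.exp_eq_one_iff.1 h5
  refine ⟨n, ?_⟩
  have h7 : (2 * (v + z.arg) : ℂ) = n * (2 * Real.pi) := by
    have h8 : (2 * (v + z.arg) : ℂ) * I = n * (2 * Real.pi) * I := by rw [hn']; ring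
    exact mul_right_cancel₀ Complex.I_ne_zero h8
  have h9 : 2 * (v + z.arg) = n * (2 * Real.pi) := by exact_mod_cast h7
  linarith

theorem sector (k κ : ℝ) (hk : 1 ≤ k)
    (h : ∃ c B T₀ : ℝ, 0 < c ∧ ∀ T U : ℝ, T₀ ≤ T → Real.log T ^ B ≤ U → U ≤ T →
      ∀ u : ℂ, ‖u‖ = 1 →
        c * (U * Real.log T * Real.log U ^ κ) ≤
          ∑ᶠ t ∈ {t : ℝ | T < t ∧ t ≤ T + U ∧ ∃ r : ℝ, 0 < r ∧
            riemannZeta (1 / 2 + t * I) = r * u}, ‖riemannZeta (1 / 2 + t * I)‖ ^ k) :
    ∃ c B T₀ : ℝ, 0 < c ∧ ∀ T U : ℝ, T₀ ≤ T → Real.log T ^ B ≤ U → U ≤ T →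
      ∀ J : Set ℝ, MeasurableSet J → J ⊆ Ioc (-Real.pi) Real.pi →
        c * ((volume J).toReal * (U * Real.log U ^ κ)) ≤
          ∫ t in {t : ℝ | T < t ∧ t ≤ T + U ∧ (riemannZeta (1 / 2 + t * I)).arg ∈ J},
            ‖riemannZeta (1 / 2 + t * I)‖ ^ k := by
  obtain ⟨c, B, T₀, hc, h⟩ := h
  refine ⟨c, B, max T₀ 200, hc, fun T U hT hU hUT J hJ hJ' => ?_⟩
  have hT0 : T₀ ≤ T := (le_max_left _ _).trans hT
  have hT2 : 200 ≤ T := (le_max_right _ _).trans hT
  obtain ⟨-, hvc, hlc, hl1, hvd, hτv, hvτ, -, hτc, -, hXX, hlam, -⟩ :=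
    Pool.Agent.W32.GPT.gp_tau
  obtain ⟨-, hX1, hfe, -⟩ := Pool.Agent.W338.QS.qs_line
  have hL0 : 0 < Real.log T := Real.log_pos (by linarith)
  obtain ⟨α, hα⟩ : ∃ α : ℝ, XX (cp 100) = cexp (α * I) := by
    refine ⟨(XX (cp 100)).arg, ?_⟩
    have h1 := Complex.norm_mul_exp_arg_mul_I (XX (cp 100))
    rw [hX1 100] at h1
    simpa using h1.symm
  have hpi := Real.pi_pos
  have key := coarea (z := fun t : ℝ => riemannZeta (1 / 2 + t * I)) z_cont
    (v := fun t => α / 2 + Real.pi * vv t) (σ := fun y => tau ((y - α / 2) / Real.pi))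
    (l := fun t => lamE t / 2) (a := T) (b := T + U) (L := Real.log T) hk
    (fun t => by
      simp only [add_sub_cancel_left, mul_div_cancel_left₀ _ hpi.ne', hτv])
    (fun y => by
      simp only [hvτ]
      field_simp
      ring)
    (by fun_prop) (hτc.comp (by fun_prop))
    (fun t => by
      have h1 := ((hvd t).const_mul Real.pi).const_add (α / 2)
      refine h1.congr_deriv ?_
      field_simp)
    (fun t => by
      have := hl1 t
      linarith)
    (fun t ht => by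
      have h1 := (hlam t (by linarith [ht.1])).2
      have h2 : Real.log t ≤ Real.log (T ^ 2) :=
        Real.log_le_log (by linarith [ht.1]) (by nlinarith [ht.2])
      rw [Real.log_pow] at h2
      push_cast at h2
      linarith)
    hL0.le
    (fun t ht hz => by
      have ht100 : 100 ≤ t := by linarith [ht.1]
      have h1 := hfe t (by linarith)
      have h2 := hXX t ht100
      refine arg_eq hz ?_
      have h3 : (starRingEnd ℂ) (riemannZeta (1 / 2 + t * I)) =
          XX (cp t) * riemannZeta (1 / 2 + t * I) := h1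
      rw [h3, h2, hα, ← Complex.exp_add]
      congr 2
      push_cast
      ring)
    hJ hJ' (D := c * (U * Real.log T * Real.log U ^ κ))
    (fun φ _ => h T U hT0 hU hUT (cexp (φ * I)) (Complex.norm_exp_ofReal_mul_I φ))
  obtain ⟨Y, hY⟩ : ∃ Y : ℝ, Y = ∫ t in {t : ℝ | T < t ∧ t ≤ T + U ∧
    (riemannZeta (1 / 2 + t * I)).arg ∈ J}, ‖riemannZeta (1 / 2 + t * I)‖ ^ k := ⟨_, rfl⟩
  rw [← hY] at key ⊢
  have h5 : Real.log T * (c * ((volume J).toReal * (U * Real.log U ^ κ))) ≤ Real.log T * Y := by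
    calc _ = c * (U * Real.log T * Real.log U ^ κ) * (volume J).toReal := by ring
      _ ≤ _ := key
  exact le_of_mul_le_mul_left h5 hL0

end Pool.Agent.TH751.ERS
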